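import Pool.Agent.W684.SG.Stm

/-!
# An analytic set whose complement is not analytic, in terms of codes
-/

set_option autoImplicit false

namespace Pool.Agent.W940.SG

open Pool.Agent.W684.SG

open Classical in
/-- the members of `x` below `n` -/
noncomputable def cut (x : ℕ → Prop) (n : ℕ) : Finset ℕ := (Finset.range n).filter x

theorem mem_cut (x : ℕ → Prop) (n i : ℕ) : i ∈ cut x n ↔ i < n ∧ x i := by
  simp [cut]

/-- the first `n` values of `w` -/
def res (w : ℕ → ℕ) (n : ℕ) : List ℕ := (List.range n).map w

theorem length_res (w : ℕ → ℕ) (n : ℕ) : (res w n).length = n := by simp [res]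

theorem getD_res (w : ℕ → ℕ) (n i : ℕ) (h : i < n) : (res w n).getD i 0 = w i := by
  simp [res, List.getD, h]

theorem eq_res {w : ℕ → ℕ} {l : List ℕ} (h : ∀ i, i < l.length → w i = l.getD i 0) :
    l = res w l.length := by
  apply List.ext_getElem
  · simp [res]
  · intro i h1 h2
    have := h i h1
    simp only [res, List.getElem_map, List.getElem_range]
    rw [this, List.getD_eq_getElem _ _ h1]

theorem eq_cut {x : ℕ → Prop} {a : Finset ℕ} {n : ℕ} (h : ∀ i, i ∈ a ↔ i < n ∧ x i) :
    a = cut x n := by
  ext i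
  rw [h i, mem_cut]

/-- membership in terms of initial segments -/
theorem inAn_iff (x : ℕ → Prop) (y : Finset ℕ → List ℕ → Prop) :
    InAn x y ↔ ∃ w : ℕ → ℕ, ∀ n, y (cut x n) (res w n) := by
  constructor
  · rintro ⟨w, hw⟩
    refine ⟨w, fun n => hw _ _ (fun i => ?_) (fun i hi => ?_)⟩
    · rw [mem_cut, length_res]
    · rw [length_res] at hi
      rw [getD_res _ _ _ hi]
  · rintro ⟨w, hw⟩
    refine ⟨w, fun a l ha hl => ?_⟩
    have h1 := eq_res hl
    have h2 := eq_cut ha
    rw [h2]
    have := hw l.length
    rwa [← h1] at this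

theorem cut_filter (x : ℕ → Prop) {m n : ℕ} (h : m ≤ n) :
    (cut x n).filter (fun i => i < m) = cut x m := by
  ext i
  simp only [Finset.mem_filter, mem_cut]
  constructor
  · rintro ⟨⟨_, h2⟩, h3⟩
    exact ⟨h3, h2⟩
  · rintro ⟨h1, h2⟩
    exact ⟨⟨lt_of_lt_of_le h1 h, h2⟩, h1⟩

theorem res_take (w : ℕ → ℕ) {m n : ℕ} (h : m ≤ n) : (res w n).take m = res w m := by
  simp [res, ← List.map_take, List.take_range, h]

/-- S_DIAG -/
theorem diag : S_DIAG := by
  let enc : Finset ℕ × List ℕ → ℕ := Encodable.encode
  have hinj : Function.Injective enc := Encodable.encode_injective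
  refine ⟨fun a l => ∀ m, m ≤ l.length →
    enc (a.filter (fun i => i < m), l.take m) < l.length →
      enc (a.filter (fun i => i < m), l.take m) ∈ a, fun y1 hy1 => ?_⟩
  have key : ∀ x : ℕ → Prop, (InAn x (fun a l => ∀ m, m ≤ l.length →
      enc (a.filter (fun i => i < m), l.take m) < l.length →
      enc (a.filter (fun i => i < m), l.take m) ∈ a) ↔ InAn x (fun a l => x (enc (a, l)))) := by
    intro x
    rw [inAn_iff, inAn_iff]
    refine exists_congr fun w => ?_
    constructor
    · intro h m
      have h1 := h (max m (enc (cut x m, res w m) + 1)) m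
        (by rw [length_res]; exact le_max_left _ _)
      rw [cut_filter x (le_max_left _ _), res_take w (le_max_left _ _), length_res] at h1
      have h2 := h1 (lt_of_lt_of_le (Nat.lt_succ_self _) (le_max_right _ _))
      exact ((mem_cut _ _ _).1 h2).2
    · intro h n m hm hlt
      rw [length_res] at hm hlt
      rw [cut_filter x hm, res_take w hm] at hlt ⊢
      exact (mem_cut _ _ _).2 ⟨hlt, h m⟩
  have h1 := hy1 (fun j => ∃ a l, enc (a, l) = j ∧ y1 a l)
  rw [key] at h1
  have h2 : (fun (a : Finset ℕ) (l : List ℕ) => ∃ a' l', enc (a', l') = enc (a, l) ∧ y1 a' l')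
      = y1 := by
    funext a l
    apply propext
    constructor
    · rintro ⟨a', l', h, h'⟩
      have := hinj h
      simp only [Prod.mk.injEq] at this
      rw [← this.1, ← this.2]
      exact h'
    · intro h
      exact ⟨a, l, rfl, h⟩
  rw [h2] at h1
  exact iff_not_self h1

end Pool.Agent.W940.SG
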